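import Pool.Agent.Q16.LU.Glev
import Pool.Agent.Q176.LU.KEY

/-!
Project LU (helper77), job GUPP: upper bound of the levels on all gauge invariant functions.
-/

set_option autoImplicit false
set_option linter.unusedSectionVars false

namespace Pool.Agent.Q16.LU

open MeasureTheory Matrix Set Filter Topology Pool.Agent.Q77.LU
open scoped ContDiff Matrix.Norms.Frobenius

theorem trial_comb {P Q : Type} [Fintype P] [DecidableEq P] [Fintype Q] [DecidableEq Q]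
    (L : Loc P Q) (g δ : ℝ) {m : ℕ} (ψ : Fin m → (P → ℝ) → ℝ) (c : Fin m → ℝ)
    (x : (P → ℝ) × (Q → ℝ)) :
    L.trial g δ (fun C => ∑ i, c i * ψ i C) x = ∑ i, c i * L.trial g δ (ψ i) x := by
  unfold Loc.trial
  simp only [Finset.mul_sum, Finset.sum_mul]
  exact Finset.sum_congr rfl fun i _ => by ring

theorem exists_rad {P : Type} [Fintype P] [DecidableEq P] {𝒢 : Set ((P → ℝ) → (P → ℝ))} {m : ℕ}
    {ψ : Fin m → (P → ℝ) → ℝ} (h : ∀ i, CI 𝒢 (ψ i)) :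
    ∃ R : ℝ, 0 < R ∧ ∀ i C, ψ i C ≠ 0 → n2 C ≤ R ^ 2 := by
  have h1 : ∀ i, ∃ M : ℝ, ∀ C, ψ i C ≠ 0 → n2 C ≤ M := by
    intro i
    obtain ⟨M, hM⟩ := ((h i).supp.isCompact.image Q150.LU.n2_cont).bddAbove
    exact ⟨M, fun C hC => hM ⟨C, subset_tsupport _ hC, rfl⟩⟩
  choose M hM using h1
  have h2 : ∀ i, |M i| ≤ ∑ j, |M j| := fun i =>
    Finset.single_le_sum (f := fun j => |M j|) (fun _ _ => abs_nonneg _) (Finset.mem_univ i)
  have h3 : 0 ≤ ∑ j, |M j| := Finset.sum_nonneg fun _ _ => abs_nonneg _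
  refine ⟨1 + ∑ j, |M j|, by linarith, fun i C hC => ?_⟩
  have h4 := hM i C hC
  have h5 := le_abs_self (M i)
  have h6 := h2 i
  nlinarith

theorem t_GUPP (h0 : S_DEC) (h1 : S_CHART) (h2 : S_UPB) (h3 : S_PULL) (h4 : S_TINV)
    (h5 : S_SYMM) (h6 : S_GS) (h7 : S_EZ) (h8 : S_FINC) (h9 : S_LIFT1) (h10 : S_UNIQ) :
    S_GUPP := by
  intro N n D l _ G hG hconn B _ _ μ _ _ hNC hD hn k ε hε
  obtain ⟨dc⟩ := h0 N n D l G hG B
  obtain ⟨L, hL⟩ := h1 N n D l G hG B μ hNC hD dc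
  have hfin := h8 N n G hG B hNC
  have hft : Fintype (Fin D → Subgroup.center G) := Fintype.ofFinite _
  obtain ⟨r1, hr1, hlift⟩ := h9 N n D l G hG B hNC dc
  obtain ⟨r2, hr2, huniq, -⟩ := h10 N n D l G hG B hNC dc
  have hLr := L.rpos
  have hne : Nonempty (Fin D × Fin n) := ⟨(⟨0, by omega⟩, ⟨0, by omega⟩)⟩
  -- the radius
  obtain ⟨δ, hδ⟩ : ∃ δ : ℝ, δ = min L.r (min r1 r2) / 2 := ⟨_, rfl⟩
  have hmin : 0 < min L.r (min r1 r2) := lt_min hLr (lt_min hr1 hr2)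
  have hδ0 : 0 < δ := by rw [hδ]; positivity
  have hδm : δ < min L.r (min r1 r2) := by rw [hδ]; linarith
  have hδr : δ < L.r := lt_of_lt_of_le hδm (min_le_left _ _)
  have hδ1 : δ < r1 := lt_of_lt_of_le hδm ((min_le_right _ _).trans (min_le_left _ _))
  have hδ2 : δ < r2 := lt_of_lt_of_le hδm ((min_le_right _ _).trans (min_le_right _ _))
  -- the constants
  obtain ⟨q, hq⟩ : ∃ q, q = k / Nat.card (Subgroup.center G) ^ D := ⟨_, rfl⟩
  obtain ⟨lam, hlam⟩ : ∃ lam, lam = lev (vred B D) (AdS B D) q := ⟨_, rfl⟩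
  have hv : L.v = vred B D := hL.v
  have hvc : Continuous (vred B D) := by rw [← hv]; exact L.cont
  have hlam0 : 0 ≤ lam := by rw [hlam, ← hv]; exact Q150.LU.lev_nonneg L.nonneg _ _
  have he0 : L.e0 = ezero n D l := by
    unfold Loc.e0; rw [hL.om, dc.sum]; exact h7 N n D l G hG B
  have he0' : 0 ≤ L.e0 := by
    unfold Loc.e0
    have : 0 ≤ ∑ i, L.om i := Finset.sum_nonneg fun i _ => (L.ompos i).le
    linarith
  obtain ⟨c0, hc⟩ : ∃ c0 : ℝ, c0 = (l : ℝ) ^ (-(D : ℝ) / 3) := ⟨_, rfl⟩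
  have hl : (0:ℝ) < l := by exact_mod_cast Nat.pos_of_ne_zero (NeZero.ne l)
  have hc0 : 0 < c0 := by rw [hc]; exact Real.rpow_pos_of_pos hl _
  have hE : ∀ g : ℝ, 0 < g → L.E g = g ^ (2 / 3 : ℝ) * c0 := fun g hg => by
    rw [Q150.LU.E_eq L hg, hL.c4, Q150.LU.c4_rpow, hc]
  obtain ⟨ε1, hε1, hε1', hε1''⟩ : ∃ ε1 : ℝ, 0 < ε1 ∧ ε1 ≤ 1 ∧ c0 * ε1 ≤ ε / 2 := by
    refine ⟨min 1 (ε / (2 * c0)), by positivity, min_le_left _ _, ?_⟩
    calc c0 * min 1 (ε / (2 * c0)) ≤ c0 * (ε / (2 * c0)) :=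
          mul_le_mul_of_nonneg_left (min_le_right _ _) hc0.le
      _ = ε / 2 := by field_simp
  have h𝒢 : ∀ σ ∈ AdS B D, ∀ x, n2 (σ x) = n2 x := by
    rintro _ ⟨h, rfl⟩ x
    exact (h5 N n D l G hG B dc h (x, 0)).2.1
  obtain ⟨ψ, hψ1, hψ2, hψ3⟩ := near_opt hvc h𝒢 q hε1
  rw [← hlam] at hψ3
  obtain ⟨R, hR, hRs⟩ := exists_rad hψ1
  obtain ⟨K, g1, hg1, hK, hupb⟩ := h2 _ _ L δ R hδ0 hδr.le hR
  -- the combinations
  have hcomb : ∀ c : Fin (q + 1) → ℝ, ContDiff ℝ ∞ (fun C => ∑ i, c i * ψ i C) ∧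
      (∀ C, (∑ i, c i * ψ i C) ≠ 0 → n2 C ≤ R ^ 2) ∧
      ∫ C, (∑ i, c i * ψ i C) ^ 2 = ∑ i, c i ^ 2 ∧
      qf L.v (fun C => ∑ i, c i * ψ i C) ≤ (lam + ε1) * ∑ i, c i ^ 2 ∧
      ∫ C, ((∑ i, c i * ψ i C) ^ 2 + g2 (fun C => ∑ i, c i * ψ i C) C) ≤
        (1 + 2 * (lam + ε1)) * ∑ i, c i ^ 2 := by
    intro c
    have hci := Q150.LU.ci_comb hψ1 c
    have k1 : ∫ C, (∑ i, c i * ψ i C) ^ 2 = ∑ i, c i ^ 2 := Q150.LU.norm_comb volume
      (Q150.LU.fam_int (fun i => (hψ1 i).sm.continuous) fun i => (hψ1 i).supp) hψ2 c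
    have k2 : qf L.v (fun C => ∑ i, c i * ψ i C) ≤ (lam + ε1) * ∑ i, c i ^ 2 := by
      rw [hv]; exact hψ3 c
    refine ⟨hci.sm, ?_, k1, k2, ?_⟩
    · intro C hC
      obtain ⟨i, -, hi⟩ := Finset.exists_ne_zero_of_sum_ne_zero hC
      exact hRs i C (right_ne_zero_of_mul hi)
    · have hc1 := Q150.LU.ci_c1 hci
      rw [integral_add (Q150.LU.int_sq hc1.continuous hci.supp) (Q150.LU.int_g2 hc1 hci.supp), k1]
      rw [Q150.LU.qf_eq hc1 hci.supp L.cont] at k2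
      have k3 : 0 ≤ ∫ C, L.v C * (∑ i, c i * ψ i C) ^ 2 :=
        integral_nonneg fun C => mul_nonneg (L.nonneg C) (sq_nonneg _)
      linarith
  obtain ⟨A, hA⟩ : ∃ A : ℝ, A = K * (1 + 2 * (lam + 1)) := ⟨_, rfl⟩
  have hA0 : 0 ≤ A := by rw [hA]; positivity
  obtain ⟨M, hM⟩ : ∃ M : ℝ, M = L.e0 + c0 * (lam + 1) + A := ⟨_, rfl⟩
  have hM0 : 0 ≤ M := by rw [hM]; positivity
  obtain ⟨g3, hg3, hs3⟩ := Q150.LU.small_rpow (A := A + 2 * K * M) (b := ε / 2) (p := 1 / 3)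
    (by positivity) (by positivity) (by norm_num)
  refine ⟨min (min g1 g3) (min 1 (1 / (2 * (K + 1)))), by positivity, fun g hg hgg => ?_⟩
  have hgg1 : g ≤ g1 := (lt_of_lt_of_le hgg ((min_le_left _ _).trans (min_le_left _ _))).le
  have hgg3 : g < g3 := lt_of_lt_of_le hgg ((min_le_left _ _).trans (min_le_right _ _))
  have hgo : g ≤ 1 := (lt_of_lt_of_le hgg ((min_le_right _ _).trans (min_le_left _ _))).le
  have hgK : K * g ≤ 1 / 2 := by
    have k1 : g ≤ 1 / (2 * (K + 1)) :=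
      (lt_of_lt_of_le hgg ((min_le_right _ _).trans (min_le_right _ _))).le
    rw [le_div_iff₀ (by positivity)] at k1
    nlinarith
  have hgp : 0 < g ^ (2 / 3 : ℝ) := Real.rpow_pos_of_pos hg _
  have hgp1 : g ^ (2 / 3 : ℝ) ≤ 1 := Real.rpow_le_one hg.le hgo (by norm_num)
  have hsm : (A + 2 * K * M) * g ≤ ε / 2 * g ^ (2 / 3 : ℝ) := by
    have k1 : g = g ^ (1 / 3 : ℝ) * g ^ (2 / 3 : ℝ) := by
      rw [← Real.rpow_add hg]; norm_num
    calc (A + 2 * K * M) * g = ((A + 2 * K * M) * g ^ (1 / 3 : ℝ)) * g ^ (2 / 3 : ℝ) := by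
          rw [mul_assoc (A + 2 * K * M), ← k1]
      _ ≤ ε / 2 * g ^ (2 / 3 : ℝ) := mul_le_mul_of_nonneg_right (hs3 g hg hgg3) hgp.le
  -- the lifts
  have htr := fun i => hupb g hg hgg1 (ψ i) (hψ1 i).sm (hRs i)
  have hinv : ∀ i (h : G) x, L.trial g δ (ψ i) (dc.sg h x) = L.trial g δ (ψ i) x := by
    intro i h x
    exact (h4 _ _ L (adF B h) (Q176.LU.tauh dc h) (fun t x => Q176.LU.adF_smul B h t x)
      (fun a => (h5 N n D l G hG B dc h (0, a)).2.2.1)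
      (fun a => by rw [hL.om]; exact (h5 N n D l G hG B dc h (0, a)).2.2.2.1)
      (fun C a => hL.Jinv h (C, a)) g hg).2 (ψ i) δ
      (fun C => (hψ1 i).inv _ ⟨h, rfl⟩ C) x.1 x.2
  have hF := fun i => hlift δ hδ0 hδ1 (L.trial g δ (ψ i)) (htr i).1 (htr i).2.1 (hinv i)
  choose F hF1 hF2 hF3 hF4 using hF
  have hHorb : ∀ c : Fin (q + 1) → ℝ, ∀ U, (∑ i, c i * F i U) ≠ 0 → Orb1 dc δ U := by
    intro c U hU
    obtain ⟨i, -, hi⟩ := Finset.exists_ne_zero_of_sum_ne_zero hU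
    exact hF4 i U (right_ne_zero_of_mul hi)
  have hd : ∀ i j, ∀ z z' : Fin D → Subgroup.center G, z ≠ z' → ∀ U,
      F i (centre (cz z) U) * F j (centre (cz z') U) = 0 := by
    intro i j z z' hz U
    by_contra hne
    exact hz (orb_disj hδ0.le hδ2.le huniq (hF4 i _ (left_ne_zero_of_mul hne))
      (hF4 j _ (right_ne_zero_of_mul hne)))
  have hpull : ∀ c : Fin (q + 1) → ℝ, dc.pull L.r (hat fun U => ∑ i, c i * F i U) =
      L.trial g δ (fun C => ∑ i, c i * ψ i C) := by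
    intro c
    refine hat_pull hL hδ0 hδ2.le hδr.le huniq (hHorb c)
      (hupb g hg hgg1 _ (hcomb c).1 (hcomb c).2.1).2.1 fun x hx => ?_
    rw [trial_comb]
    refine Finset.sum_congr rfl fun i _ => ?_
    rw [hF3 i x (hx.trans (pow_lt_pow_left₀ hδ1 hδ0.le two_ne_zero))]
  obtain ⟨E, hEd⟩ : ∃ E : ℝ, E = L.e0 + L.E g * (lam + ε1) + K * g * (1 + 2 * (lam + ε1)) :=
    ⟨_, rfl⟩
  have hE0 : 0 ≤ E := by
    rw [hEd, hE g hg]; positivity
  have hβ : 0 < 1 - K * g := by linarith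
  have hcard : k + 1 ≤ (q + 1) * Fintype.card (Fin D → Subgroup.center G) := by
    have k1 : Fintype.card (Fin D → Subgroup.center G) = Nat.card (Subgroup.center G) ^ D := by
      rw [← Nat.card_eq_fintype_card, Nat.card_fun, Nat.card_eq_fintype_card (α := Fin D),
        Fintype.card_fin]
    have k2 : 0 < Nat.card (Subgroup.center G) ^ D := by
      rw [← k1]; exact Fintype.card_pos
    rw [k1, hq]
    have k3 := Nat.div_add_mod k (Nat.card (Subgroup.center G) ^ D)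
    have k4 := Nat.mod_lt k k2
    nlinarith
  have hmain := glevel_le h6 hG B μ g k q hcard hF1 hF2 hd hβ hE0 (fun c => by
      obtain ⟨p1, p2, p3, p4, p5⟩ := h3 N n D l G hG B μ dc L hL δ hδ0 hδr _
        (hat_smooth (sm_comb' hF1 c)) (hat_gauge (Q150.LU.gi_comb hF2 c)) (hat_centre _)
        (hat_orb (hHorb c))
      obtain ⟨u1, u2, u3, u4, u5⟩ := hupb g hg hgg1 _ (hcomb c).1 (hcomb c).2.1
      rw [p4, hpull c]
      rw [(hcomb c).2.2.1] at u3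
      exact u3) (fun c => by
      obtain ⟨p1, p2, p3, p4, p5⟩ := h3 N n D l G hG B μ dc L hL δ hδ0 hδr _
        (hat_smooth (sm_comb' hF1 c)) (hat_gauge (Q150.LU.gi_comb hF2 c)) (hat_centre _)
        (hat_orb (hHorb c))
      obtain ⟨u1, u2, u3, u4, u5⟩ := hupb g hg hgg1 _ (hcomb c).1 (hcomb c).2.1
      have k1 := (p5 g hg).2
      rw [hpull c] at k1
      refine (k1.trans u5).trans ?_
      rw [(hcomb c).2.2.1, hEd]
      have k2 := mul_le_mul_of_nonneg_left (hcomb c).2.2.2.1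
        (show 0 ≤ L.E g by rw [hE g hg]; positivity)
      have k3 := mul_le_mul_of_nonneg_left (hcomb c).2.2.2.2
        (show 0 ≤ K * g by positivity)
      linarith)
  rw [← hq, ← hlam, ← hc, ← he0]
  refine hmain.trans ?_
  -- the constants
  have hEM : E ≤ L.e0 + g ^ (2 / 3 : ℝ) * (c0 * (lam + ε1)) + A * g := by
    rw [hEd, hE g hg, hA]
    have k1 : K * g * (1 + 2 * (lam + ε1)) ≤ K * g * (1 + 2 * (lam + 1)) := by
      apply mul_le_mul_of_nonneg_left _ (by positivity)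
      linarith
    linarith
  have hEM2 : E ≤ M := by
    rw [hM]
    have k1 : g ^ (2 / 3 : ℝ) * (c0 * (lam + ε1)) ≤ 1 * (c0 * (lam + 1)) := by
      apply mul_le_mul hgp1 _ (by positivity) one_pos.le
      apply mul_le_mul_of_nonneg_left _ hc0.le
      linarith
    have k2 : A * g ≤ A * 1 := mul_le_mul_of_nonneg_left hgo hA0
    linarith
  rw [div_le_iff₀ hβ]
  have k1 : 2 * K * g * E ≤ 2 * K * M * g := by
    have : 2 * K * g * E ≤ 2 * K * g * M := mul_le_mul_of_nonneg_left hEM2 (by positivity)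
    linarith
  have k2 : g ^ (2 / 3 : ℝ) * (c0 * ε1) ≤ g ^ (2 / 3 : ℝ) * (ε / 2) :=
    mul_le_mul_of_nonneg_left hε1'' hgp.le
  obtain ⟨T, hT⟩ : ∃ T : ℝ, T = L.e0 + g ^ (2 / 3 : ℝ) * (c0 * lam + ε) := ⟨_, rfl⟩
  have k3 : E * (1 + 2 * (K * g)) ≤ T := by
    rw [hT]
    nlinarith
  rw [← hT]
  -- E ≤ E (1 + 2 K g) (1 - K g)
  have k4 : E ≤ E * (1 + 2 * (K * g)) * (1 - K * g) := by
    have k5 : 1 ≤ (1 + 2 * (K * g)) * (1 - K * g) := by
      have : 0 ≤ K * g := by positivity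
      nlinarith
    calc E = E * 1 := (mul_one E).symm
      _ ≤ E * ((1 + 2 * (K * g)) * (1 - K * g)) := mul_le_mul_of_nonneg_left k5 hE0
      _ = _ := by ring
  exact k4.trans (mul_le_mul_of_nonneg_right k3 hβ.le)

end Pool.Agent.Q16.LU
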