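import Pool.Agent.Q150.LU.LOW

/-!
Project LU (helper77), job GUPP: there are many invariant functions on the reduced model, and the
levels of the reduced model are infima over nonempty sets.
-/

set_option autoImplicit false

namespace Pool.Agent.Q16.LU

open MeasureTheory Matrix Set Filter Topology Pool.Agent.Q77.LU Pool.Agent.Q150.LU
open scoped ContDiff Matrix.Norms.Frobenius

/-- a quadratic form is bounded by the sum of the entries of its matrix -/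
theorem quad_le {m : ℕ} (q : Matrix (Fin m) (Fin m) ℝ) (c : Fin m → ℝ) :
    ∑ i, c i * (q.mulVec c) i ≤ (∑ i, ∑ j, |q i j|) * ∑ i, c i ^ 2 := by
  have h0 : ∀ i, c i ^ 2 ≤ ∑ i, c i ^ 2 := fun i =>
    Finset.single_le_sum (f := fun i => c i ^ 2) (fun _ _ => sq_nonneg _) (Finset.mem_univ i)
  simp only [Finset.sum_mul]
  refine Finset.sum_le_sum fun x _ => ?_
  simp only [Matrix.mulVec, dotProduct]
  rw [Finset.mul_sum]
  refine Finset.sum_le_sum fun y _ => ?_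
  have h1 : c x * (q x y * c y) ≤ |q x y| * (|c x| * |c y|) := by
    calc c x * (q x y * c y) ≤ |c x * (q x y * c y)| := le_abs_self _
      _ = |q x y| * (|c x| * |c y|) := by rw [abs_mul, abs_mul]; ring
  refine h1.trans (mul_le_mul_of_nonneg_left ?_ (abs_nonneg _))
  have h2 := h0 x
  have h3 := h0 y
  nlinarith [sq_nonneg (|c x| - |c y|), sq_abs (c x), sq_abs (c y)]

variable {P : Type} [Fintype P] [DecidableEq P]

theorem qf_quad {v : (P → ℝ) → ℝ} (hv : Continuous v) {𝒢 : Set ((P → ℝ) → (P → ℝ))} {m : ℕ}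
    {ψ : Fin m → (P → ℝ) → ℝ} (h : ∀ i, CI 𝒢 (ψ i)) (c : Fin m → ℝ) :
    qf v (fun C => ∑ i, c i * ψ i C) =
      ∑ i, c i * ((Matrix.of fun i j => bil (1 / 2) 1 v (ψ i) (ψ j)).mulVec c) i := by
  rw [← quad_en (fun i => ci_c1 (h i)) (fun i => (h i).supp) hv]
  unfold qf
  simp only [one_mul]

/-- orthonormal families of invariant functions of every length exist -/
theorem levk_nonempty [Nonempty P] (v : (P → ℝ) → ℝ) (hv : Continuous v)
    {𝒢 : Set ((P → ℝ) → (P → ℝ))} (h𝒢 : ∀ σ ∈ 𝒢, ∀ x, n2 (σ x) = n2 x) (k : ℕ) :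
    {E : ℝ | ∃ ψ : Fin (k + 1) → (P → ℝ) → ℝ, (∀ i, CI 𝒢 (ψ i)) ∧
    (∀ i j, ∫ C, ψ i C * ψ j C = if i = j then 1 else 0) ∧
    ∀ c : Fin (k + 1) → ℝ, qf v (fun C => ∑ i, c i * ψ i C) ≤ E * ∑ i, c i ^ 2}.Nonempty := by
  let b : ContDiffBump (0 : ℝ) := ⟨1 / 4, 1 / 2, by norm_num, by norm_num⟩
  let f : ℝ → (P → ℝ) → ℝ := fun u x => b (n2 x - u)
  have hf : ∀ u, CI 𝒢 (f u) := fun u => radial h𝒢 b u
  have hcont : ∀ u, Continuous (f u) := fun u => (hf u).sm.continuous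
  have hN : ∀ u : ℝ, 0 ≤ u → 0 < ∫ x, f u x ^ 2 := by
    intro u hu
    obtain ⟨i⟩ := ‹Nonempty P›
    have hx : n2 (Pi.single i (Real.sqrt u) : P → ℝ) = u := by
      unfold n2
      rw [Finset.sum_eq_single i]
      · simp [Real.sq_sqrt hu]
      · intro j _ hj
        simp [Pi.single_eq_of_ne hj]
      · simp
    apply ((hcont u).pow 2).integral_pos_of_hasCompactSupport_nonneg_nonzero
      (x := Pi.single i (Real.sqrt u))
    · refine (hf u).supp.mono fun x hx => ?_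
      rw [Function.mem_support] at hx ⊢
      intro h
      apply hx
      simp [h]
    · exact fun x => sq_nonneg _
    · have : b 0 = 1 := b.one_of_mem_closedBall (by simp [b])
      have h1 : f u (Pi.single i (Real.sqrt u)) = 1 := by
        simp only [f, hx, sub_self, this]
      rw [Pi.pow_apply, h1]
      norm_num
  have hdisj : ∀ (i j : ℕ), i ≠ j → ∀ x, f i x * f j x = 0 := by
    intro i j hij x
    by_contra h
    have h0 : f i x ≠ 0 := left_ne_zero_of_mul h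
    have h3 : f j x ≠ 0 := right_ne_zero_of_mul h
    have k0 : n2 x - i ∈ Metric.ball (0:ℝ) b.rOut := by rw [← b.support_eq]; exact h0
    have k3 : n2 x - j ∈ Metric.ball (0:ℝ) b.rOut := by rw [← b.support_eq]; exact h3
    rw [Metric.mem_ball, Real.dist_eq, sub_zero] at k0 k3
    have e : b.rOut = 1 / 2 := rfl
    rw [e] at k0 k3
    have a1 := abs_lt.1 k0
    have a2 := abs_lt.1 k3
    have a3 : |((i : ℤ) - (j : ℤ) : ℝ)| < 1 := by
      rw [abs_lt]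
      push_cast
      constructor <;> linarith [a1.1, a1.2, a2.1, a2.2]
    have a4 : |(i : ℤ) - (j : ℤ)| < 1 := by exact_mod_cast a3
    have a5 := Int.abs_lt_one_iff.1 a4
    omega
  obtain ⟨c0, hc0⟩ : ∃ c0 : Fin (k + 1) → ℝ, ∀ i,
      c0 i * c0 i * (∫ x, f ((i : ℕ) : ℝ) x ^ 2) = 1 := by
    refine ⟨fun i => (Real.sqrt (∫ x, f ((i : ℕ) : ℝ) x ^ 2))⁻¹, fun i => ?_⟩
    have h1 := hN ((i : ℕ) : ℝ) (Nat.cast_nonneg _)
    rw [← mul_inv, Real.mul_self_sqrt h1.le, inv_mul_cancel₀ h1.ne']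
  obtain ⟨ψ, hψ⟩ : ∃ ψ : Fin (k + 1) → (P → ℝ) → ℝ, ψ = fun i x => c0 i * f ((i : ℕ) : ℝ) x :=
    ⟨_, rfl⟩
  have hCI : ∀ i, CI 𝒢 (ψ i) := by
    intro i
    rw [hψ]
    exact ⟨contDiff_const.mul (hf _).sm, (hf _).supp.mul_left (f := fun _ => c0 i),
        fun σ hσ x => by simp only [(hf _).inv σ hσ x]⟩
  refine ⟨∑ i, ∑ j, |(Matrix.of fun i j => bil (1 / 2) 1 v (ψ i) (ψ j)) i j|, ψ, hCI, ?_, ?_⟩
  · intro i j
    split_ifs with hij
    · subst hij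
      have e : ∀ C, ψ i C * ψ i C = c0 i * c0 i * f ((i : ℕ) : ℝ) C ^ 2 := by
        intro C
        rw [hψ]
        ring
      simp_rw [e]
      rw [integral_const_mul, hc0]
    · have e : ∀ C, ψ i C * ψ j C = 0 := by
        intro C
        rw [hψ]
        have h1 := hdisj i j (fun h => hij (Fin.ext h)) C
        calc c0 i * f ((i : ℕ) : ℝ) C * (c0 j * f ((j : ℕ) : ℝ) C)
            = c0 i * c0 j * (f ((i : ℕ) : ℝ) C * f ((j : ℕ) : ℝ) C) := by ring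
          _ = 0 := by rw [h1, mul_zero]
      simp [e]
  · intro c
    rw [qf_quad hv hCI]
    exact quad_le _ c

/-- near optimal families -/
theorem near_opt [Nonempty P] {v : (P → ℝ) → ℝ} (hv : Continuous v)
    {𝒢 : Set ((P → ℝ) → (P → ℝ))} (h𝒢 : ∀ σ ∈ 𝒢, ∀ x, n2 (σ x) = n2 x) (k : ℕ) {ε : ℝ}
    (hε : 0 < ε) : ∃ ψ : Fin (k + 1) → (P → ℝ) → ℝ, (∀ i, CI 𝒢 (ψ i)) ∧
    (∀ i j, ∫ C, ψ i C * ψ j C = if i = j then 1 else 0) ∧
    ∀ c : Fin (k + 1) → ℝ, qf v (fun C => ∑ i, c i * ψ i C) ≤ (lev v 𝒢 k + ε) * ∑ i, c i ^ 2 := by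
  have h1 : sInf {E : ℝ | ∃ ψ : Fin (k + 1) → (P → ℝ) → ℝ, (∀ i, CI 𝒢 (ψ i)) ∧
    (∀ i j, ∫ C, ψ i C * ψ j C = if i = j then 1 else 0) ∧
    ∀ c : Fin (k + 1) → ℝ, qf v (fun C => ∑ i, c i * ψ i C) ≤ E * ∑ i, c i ^ 2} < lev v 𝒢 k + ε := by
    unfold lev
    linarith
  obtain ⟨E, ⟨ψ, h2, h3, h4⟩, h5⟩ := exists_lt_of_csInf_lt (levk_nonempty v hv h𝒢 k) h1
  refine ⟨ψ, h2, h3, fun c => (h4 c).trans ?_⟩
  exact mul_le_mul_of_nonneg_right h5.le (Finset.sum_nonneg fun _ _ => sq_nonneg _)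

end Pool.Agent.Q16.LU
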