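import Pool.Agent.Q16.LU.Wells
import Pool.Agent.Q16.LU.Fam

/-!
Project LU (helper77), job GUPP: upper bound of the levels by the translates of functions supported
in one well.
-/

set_option autoImplicit false
set_option linter.unusedSectionVars false

namespace Pool.Agent.Q16.LU

open MeasureTheory Matrix Set Filter Topology Pool.Agent.Q77.LU
open scoped ContDiff Matrix.Norms.Frobenius

variable {N n D l : ℕ} [NeZero l] {G : Subgroup (UU N)} [Fintype (Fin D → Subgroup.center G)]

theorem comb_disj {q : ℕ} {F : Fin (q + 1) → (Link D l → G) → ℝ}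
    (hd : ∀ i j, ∀ z z' : Fin D → Subgroup.center G, z ≠ z' → ∀ U,
      F i (centre (cz z) U) * F j (centre (cz z') U) = 0) (c c' : Fin (q + 1) → ℝ)
    (z z' : Fin D → Subgroup.center G) (hz : z ≠ z') (U : Link D l → G) :
    (∑ i, c i * F i (centre (cz z) U)) * (∑ i, c' i * F i (centre (cz z') U)) = 0 := by
  rw [Finset.sum_mul_sum]
  refine Finset.sum_eq_zero fun i _ => Finset.sum_eq_zero fun j _ => ?_
  calc c i * F i (centre (cz z) U) * (c' j * F j (centre (cz z') U))
      = c i * c' j * (F i (centre (cz z) U) * F j (centre (cz z') U)) := by ring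
    _ = 0 := by rw [hd i j z z' hz U, mul_zero]

theorem sm_comb' {ι : Type*} [Fintype ι] {F : ι → (Link D l → G) → ℝ} (hF : ∀ i, IsSmooth (F i))
    (c : ι → ℝ) : IsSmooth (fun U => ∑ i, c i * F i U) :=
  IsSmooth.sum Finset.univ fun i _ => (IsSmooth.const (c i)).mul (hF i)

theorem glevel_le (hGS : S_GS) (hG : IsClosed (G : Set (UU N))) (B : LieBasis G n)
    [MeasurableSpace G] [BorelSpace G] (μ : Measure G) [IsProbabilityMeasure μ] [μ.IsHaarMeasure]
    (g : ℝ) (k q : ℕ)
    (hk : k + 1 ≤ (q + 1) * Fintype.card (Fin D → Subgroup.center G))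
    {F : Fin (q + 1) → (Link D l → G) → ℝ} (hs : ∀ i, IsSmooth (F i)) (hg : ∀ i, GaugeInv (F i))
    (hd : ∀ i j, ∀ z z' : Fin D → Subgroup.center G, z ≠ z' → ∀ U,
      F i (centre (cz z) U) * F j (centre (cz z') U) = 0) {β E : ℝ} (hβ : 0 < β) (hE : 0 ≤ E)
    (h1 : ∀ c : Fin (q + 1) → ℝ, β * ∑ i, c i ^ 2 ≤
      ∫ U, hat (fun U => ∑ i, c i * F i U) U ^ 2 ∂(Measure.pi fun _ : Link D l => μ))
    (h2 : ∀ c : Fin (q + 1) → ℝ, energy B μ g (hat (fun U => ∑ i, c i * F i U)) ≤
      E * ∑ i, c i ^ 2) :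
    glevel D l B μ g k ≤ E / β := by
  classical
  obtain ⟨m, hm⟩ : ∃ m : ℝ, m = Fintype.card (Fin D → Subgroup.center G) := ⟨_, rfl⟩
  have hm0 : 0 < m := by rw [hm]; exact_mod_cast Fintype.card_pos
  have hsm : Real.sqrt m * Real.sqrt m = m := Real.mul_self_sqrt hm0.le
  obtain ⟨ι⟩ : Nonempty (Fin (k + 1) ↪ Fin (q + 1) × (Fin D → Subgroup.center G)) := by
    apply Function.Embedding.nonempty_of_card_le
    rw [Fintype.card_prod, Fintype.card_fin, Fintype.card_fin]
    exact hk
  obtain ⟨Φ, hΦ⟩ : ∃ Φ : Fin (k + 1) → (Link D l → G) → ℝ,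
    Φ = fun j U => Real.sqrt m * F (ι j).1 (centre (cz (ι j).2) U) := ⟨_, rfl⟩
  have hΦs : ∀ j, IsSmooth (Φ j) := fun j => by
    rw [hΦ]
    exact (IsSmooth.const (Real.sqrt m)).mul (smooth_centre (hs _) _)
  have hΦg : ∀ j, GaugeInv (Φ j) := fun j γ U => by
    rw [hΦ]
    simp only
    rw [← Q65.LU.gauge_centre (cz_mem _), hg]
  -- the energy and the norm of a combination
  have key : ∀ c : Fin (k + 1) → ℝ,
      β * ∑ j, c j ^ 2 ≤ ∫ U, (∑ j, c j * Φ j U) ^ 2 ∂(Measure.pi fun _ : Link D l => μ) ∧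
      energy B μ g (fun U => ∑ j, c j * Φ j U) ≤ E * ∑ j, c j ^ 2 := by
    intro c
    obtain ⟨c', hc'⟩ : ∃ c' : Fin (q + 1) × (Fin D → Subgroup.center G) → ℝ,
      c' = Function.extend ι c 0 := ⟨_, rfl⟩
    have k1 : ∀ j, c' (ι j) = c j := fun j => by rw [hc', ι.injective.extend_apply]
    have k2 : ∀ p ∉ Set.range ι, c' p = 0 := fun p hp => by
      rw [hc', Function.extend_apply' _ _ _ (fun ⟨j, hj⟩ => hp ⟨j, hj⟩)]
      rfl
    have k3 : ∑ j, c j ^ 2 = ∑ z : Fin D → Subgroup.center G, ∑ i, c' (i, z) ^ 2 := by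
      rw [← Fintype.sum_prod_type_right (f := fun p => c' p ^ 2)]
      exact Fintype.sum_of_injective ι ι.injective _ _ (fun p hp => by rw [k2 p hp]; norm_num)
        (fun j => by rw [k1])
    obtain ⟨Hz, hHz⟩ : ∃ Hz : (Fin D → Subgroup.center G) → (Link D l → G) → ℝ,
      Hz = fun z U => ∑ i, (Real.sqrt m * c' (i, z)) * F i U := ⟨_, rfl⟩
    have k4 : (fun U => ∑ j, c j * Φ j U) = fun U => ∑ z, Hz z (centre (cz z) U) := by
      funext U
      rw [hHz, hΦ]
      simp only
      rw [← Fintype.sum_prod_type_right (f := fun p => (Real.sqrt m * c' p) *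
        F p.1 (centre (cz p.2) U))]
      exact Fintype.sum_of_injective ι ι.injective _ _ (fun p hp => by rw [k2 p hp]; ring)
        (fun j => by rw [k1]; ring)
    have k5 : ∀ z, IsSmooth (Hz z) := fun z => by rw [hHz]; exact sm_comb' hs _
    have k6 : ∀ w w' z z' : Fin D → Subgroup.center G, z ≠ z' → ∀ U,
        Hz w (centre (cz z) U) * Hz w' (centre (cz z') U) = 0 := by
      intro w w' z z' hz U
      rw [hHz]
      exact comb_disj hd _ _ z z' hz U
    have k7 : ∀ z, ∑ i, (Real.sqrt m * c' (i, z)) ^ 2 = m * ∑ i, c' (i, z) ^ 2 := by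
      intro z
      rw [Finset.mul_sum]
      refine Finset.sum_congr rfl fun i _ => ?_
      rw [mul_pow, sq (Real.sqrt m), hsm]
    rw [k3]
    constructor
    · have k8 : ∀ z, β * ∑ i, c' (i, z) ^ 2 ≤
          ∫ U, Hz z U ^ 2 ∂(Measure.pi fun _ : Link D l => μ) := by
        intro z
        have k9 := h1 fun i => Real.sqrt m * c' (i, z)
        have k10 : (fun U => ∑ i, (Real.sqrt m * c' (i, z)) * F i U) = Hz z := by rw [hHz]
        rw [k7, k10, int_hat μ hG (k5 z) (k6 z z), ← hm] at k9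
        refine le_of_mul_le_mul_left ?_ hm0
        linarith
      have k11 : ∫ U, (∑ j, c j * Φ j U) ^ 2 ∂(Measure.pi fun _ : Link D l => μ) =
          ∑ z, ∫ U, Hz z U ^ 2 ∂(Measure.pi fun _ : Link D l => μ) := by
        have k12 : ∀ U, (∑ j, c j * Φ j U) = ∑ z, Hz z (centre (cz z) U) := congrFun k4
        simp_rw [k12]
        rw [int_disj μ hG Finset.univ
          (F := fun (z : Fin D → Subgroup.center G) U => Hz z (centre (cz z) U))
          (fun z => smooth_centre (k5 z) (cz z)) fun z z' hz U => k6 z z' z z' hz U]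
        exact Finset.sum_congr rfl fun z _ => int_centre μ hG (cz z) fun U => Hz z U ^ 2
      rw [k11, Finset.mul_sum]
      exact Finset.sum_le_sum fun z _ => k8 z
    · have k8 : ∀ z, energy B μ g (Hz z) ≤ E * ∑ i, c' (i, z) ^ 2 := by
        intro z
        have k9 := h2 fun i => Real.sqrt m * c' (i, z)
        have k10 : (fun U => ∑ i, (Real.sqrt m * c' (i, z)) * F i U) = Hz z := by rw [hHz]
        rw [k7, k10, energy_hat μ hG B g (k5 z) (k6 z z), ← hm] at k9
        refine le_of_mul_le_mul_left ?_ hm0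
        linarith
      have k11 : energy B μ g (fun U => ∑ j, c j * Φ j U) = ∑ z, energy B μ g (Hz z) := by
        rw [k4, energy_disj μ hG B g Finset.univ
          (F := fun (z : Fin D → Subgroup.center G) U => Hz z (centre (cz z) U))
          (fun z => smooth_centre (k5 z) (cz z)) fun z z' hz U => k6 z z' z z' hz U]
        exact Finset.sum_congr rfl fun z _ => energy_centre μ hG B g (cz_mem z) (Hz z)
      rw [k11, Finset.mul_sum]
      exact Finset.sum_le_sum fun z _ => k8 z
  -- change of the family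
  have hi : ∀ i j, Integrable (fun U => Φ i U * Φ j U) (Measure.pi fun _ : Link D l => μ) :=
    fun i j => integrable_links μ hG ((hΦs i).continuous.mul (hΦs j).continuous)
  obtain ⟨R, hR1, hR2⟩ := hGS (k + 1)
    (Matrix.of fun i j => ∫ U, Φ i U * Φ j U ∂(Measure.pi fun _ : Link D l => μ))
    (Matrix.of fun i j => en B μ g (Φ i) (Φ j)) β E hβ hE (by
      ext i j
      simp only [Matrix.transpose_apply, Matrix.of_apply]
      congr 1
      funext x
      ring) (fun c => by
      rw [← Q150.LU.int_sq_comb _ hi c]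
      exact (key c).1) (fun c => by
      rw [← energy_quad μ hG B g hΦs c]
      exact (key c).2)
  unfold glevel
  refine csInf_le ⟨0, ?_⟩ ⟨fun i U => ∑ j, R j i * Φ j U, fun i => ⟨sm_comb' hΦs _, ?_⟩,
    fun i j => Q150.LU.gram_change _ hi R hR1 i j, fun c => ?_⟩
  · rintro E' ⟨Ψ, -, -, h3⟩
    have h4 := (energy_nonneg μ B g _).trans (h3 fun _ => 1)
    simp only [one_pow, Finset.sum_const, Finset.card_univ, Fintype.card_fin, nsmul_eq_mul,
      mul_one] at h4
    have h5 : (0:ℝ) < ((k + 1 : ℕ) : ℝ) := by positivity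
    exact nonneg_of_mul_nonneg_left h4 h5
  · exact Q150.LU.gi_comb hΦg _
  · have h3 : (fun U => ∑ i, c i * ∑ j, R j i * Φ j U) = fun U => ∑ j, (R.mulVec c) j * Φ j U :=
      funext fun U => Q150.LU.comb_mul R c fun j => Φ j U
    rw [h3, energy_quad μ hG B g hΦs]
    exact hR2 c

end Pool.Agent.Q16.LU
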