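import Pool.Agent.Q65.LU.LIFT
import Pool.Agent.Q77.LU.StmK

/-!
Project LU (helper77), job LIFT1: lifting functions from the chart to one well.  The proof follows
the proof of `t_LIFT` of helper65 (Q65/LU/LIFT.lean) without the sum over the centre.
-/

set_option autoImplicit false

namespace Pool.Agent.Q16.LU

open MeasureTheory Matrix Set Filter Topology Pool.Agent.Q77.LU Pool.Agent.Q65.LU
open scoped ContDiff Matrix.Norms.Frobenius Manifold

theorem t_LIFT1 (h1 : S_THD) (h2 : S_INVF) (h3 : S_UNIQ) (h4 : S_TGA) (h5 : S_CARD) (h6 : S_SYMM)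
    (h7 : S_FINC) : S_LIFT1 := by
  intro N n D l _ G hG B hNC dc
  have hfin := h7 N n G hG B hNC
  have hcG : CompactSpace G := compactG hG
  obtain ⟨hth0, hthS, hthD, hext⟩ := h1 N n D l G hG B dc
  obtain ⟨r1, hr1, Ξ, hΞ, hinv, hopen⟩ := h2 N n G hG B (Fin D × Fin n) (Fin dc.M) (NT D l)
    (dim_eq h5 dc) dc.th hthS hthD
  obtain ⟨r2, hr2, huniq, -⟩ := h3 N n D l G hG B hNC dc
  have hc := th_cont h1 hG dc
  refine ⟨min r1 r2, lt_min hr1 hr2, fun ρ hρ hρr f hf hfs hfi => ?_⟩
  set r := min r1 r2 with hr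
  have hrp : 0 < r := lt_min hr1 hr2
  have hρ1 : ρ ^ 2 < r ^ 2 := pow_lt_pow_left₀ hρr hρ.le two_ne_zero
  have hle1 : r ^ 2 ≤ r1 ^ 2 := pow_le_pow_left₀ hrp.le (min_le_left _ _) 2
  -- the matrices
  have hmi : Continuous (fun V : NT D l → G => fun e => mt (V e)) :=
    continuous_pi fun e => mt_cont.comp (continuous_apply e)
  have hinj : ∀ V W : NT D l → G, (fun e => mt (V e)) = (fun e => mt (W e)) → V = W := by
    intro V W h
    funext e
    exact mt_inj (congrFun h e)
  have hK : IsClosed ((fun V : NT D l → G => fun e => mt (V e)) '' (dc.th '' {x | nx x ≤ ρ ^ 2})) :=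
    (((nx_ball_compact ρ hρ).image hc).image hmi).isClosed
  have hC : IsClosed ((fun V : NT D l → G => fun e => mt (V e)) '' (dc.th '' {x | nx x < r ^ 2})ᶜ) := by
    have h8 : IsClosed ((dc.th '' {x | nx x < r ^ 2})ᶜ) :=
      (hopen r hrp (min_le_left _ _)).isClosed_compl
    exact (h8.isCompact.image hmi).isClosed
  have hd : Disjoint ((fun V : NT D l → G => fun e => mt (V e)) '' (dc.th '' {x | nx x < r ^ 2})ᶜ)
      ((fun V : NT D l → G => fun e => mt (V e)) '' (dc.th '' {x | nx x ≤ ρ ^ 2})) := by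
    rw [Set.disjoint_left]
    rintro _ ⟨V, hV, rfl⟩ ⟨W, ⟨x, hx, rfl⟩, hW⟩
    apply hV
    rw [← hinj _ _ hW]
    exact ⟨x, lt_of_le_of_lt hx hρ1, rfl⟩
  obtain ⟨χ, hχ, hχ0, hχ1⟩ := urysohn hC hK hd
  set Q : (NT D l → Mt N) → ℝ := fun M => f (Ξ M) * χ M with hQ
  have hQs : ContDiff ℝ ∞ Q := (hf.comp hΞ).mul hχ
  have a1 : ∀ x, nx x < r ^ 2 → Q (fun e => mt (dc.th x e)) = f x := by
    intro x hx
    rw [hQ]
    simp only
    rw [hinv x (hx.trans_le hle1)]
    by_cases h8 : f x = 0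
    · rw [h8, zero_mul]
    · rw [hχ1 _ ⟨dc.th x, ⟨x, (hfs x h8).le, rfl⟩, rfl⟩, mul_one]
  have a2 : ∀ V : NT D l → G, V ∉ dc.th '' {x | nx x < r ^ 2} → Q (fun e => mt (V e)) = 0 := by
    intro V hV
    rw [hQ]
    simp only
    rw [hχ0 _ ⟨V, hV, rfl⟩, mul_zero]
  have a3 : ∀ (h : G) (V : NT D l → G), Q (fun e => mt (h * V e * h⁻¹)) = Q (fun e => mt (V e)) := by
    intro h V
    by_cases hV : V ∈ dc.th '' {x | nx x < r ^ 2}
    · obtain ⟨x, hx, rfl⟩ := hV
      have e1 : (fun e : NT D l => mt (h * dc.th x e * h⁻¹)) = fun e => mt (dc.th (dc.sg h x) e) := by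
        funext e
        rw [th_sg h4 h6 hG]
      have h9 : nx (dc.sg h x) < r ^ 2 := by rw [nx_sg h6 hG]; exact hx
      rw [e1, a1 _ h9, a1 _ hx, hfi]
    · have h9 : (fun e : NT D l => h * V e * h⁻¹) ∉ dc.th '' {x | nx x < r ^ 2} := by
        rintro ⟨x, hx, he⟩
        apply hV
        refine ⟨dc.sg h⁻¹ x, ?_, ?_⟩
        · change nx (dc.sg h⁻¹ x) < r ^ 2
          rw [nx_sg h6 hG]
          exact hx
        · funext e
          rw [th_sg h4 h6 hG, congrFun he e]
          group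
      rw [a2 _ h9, a2 _ hV]
  set F : (Link D l → G) → ℝ := fun U => Q (fun e : NT D l => mt (tg U e.1)) with hF
  refine ⟨F, ?_, ?_, ?_, ?_⟩
  · -- smooth
    refine ⟨fun M => Q (fun e : NT D l => tgM M e.1), ?_, ?_⟩
    · refine hQs.comp ?_
      refine contDiff_pi.2 fun e => ?_
      have h9 : ∀ x : Fin D → ZMod l, ContDiff ℝ ∞ fun M : Link D l → Mt N => pthM M x := by
        intro x
        unfold pthM
        exact cd_ofFn fun i => cd_ofFn fun s => contDiff_apply _ _ _
      unfold tgM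
      exact ((h9 _).mul (contDiff_apply _ _ _)).mul (cd_conj (h9 _))
    · intro U
      rw [hF]
      simp only
      congr 1
      funext e
      rw [mt_tg]
  · -- gauge invariant
    intro γ U
    rw [hF]
    simp only
    rw [(h4 N D l G U).2.1 γ]
    exact a3 (γ 0) (fun e => tg U e.1)
  · -- values in the chart
    intro x hx
    exact a1 x hx
  · -- support
    intro U hU
    rw [hF] at hU
    have h8 : (fun e : NT D l => tg U e.1) ∈ dc.th '' {x | nx x < r ^ 2} := by
      by_contra h9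
      exact hU (a2 _ h9)
    obtain ⟨x, hx, he⟩ := h8
    have e1 : Q (fun e : NT D l => mt (tg U e.1)) = f x := by
      have e2 : (fun e : NT D l => mt (tg U e.1)) = fun e => mt (dc.th x e) := by
        funext e
        rw [congrFun he e]
      rw [e2]
      exact a1 x hx
    have hz : f x ≠ 0 := by
      rw [← e1]
      exact hU
    have hz1 : ∀ i : Fin D, (fun _ => (1 : G)) i ∈ Subgroup.center G := fun _ => Subgroup.one_mem _
    have e3 := eq_orb h1 h4 hG dc (z := fun _ : Fin D => (1 : G)) hz1 (U := U) (x := x)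
      (fun e => by rw [centre_one]; exact (congrFun he e).symm)
    rw [centre_eq_one (fun i => inv_one)] at e3
    exact ⟨_, x, hfs x hz, e3⟩

end Pool.Agent.Q16.LU
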