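import Pool.Agent.Q77.LU.Base
import Pool.Agent.Q66.LU.PULL
import Pool.Agent.Q65.LU.UNIQ
import Pool.Agent.Q77.LU.StmK
import Pool.Agent.Q150.LU.Lin

/-!
Project LU (helper77), job GUPP: functions with disjoint supports and their translates by the
centre.
-/

set_option autoImplicit false
set_option linter.unusedSectionVars false

namespace Pool.Agent.Q16.LU

open MeasureTheory Matrix Set Filter Topology Pool.Agent.Q77.LU
open scoped ContDiff Matrix.Norms.Frobenius

theorem deriv_mul_zero {f g : ℝ → ℝ} {x : ℝ} (h : ∀ t, f t * g t = 0) :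
    deriv f x * deriv g x = 0 := by
  by_contra hne
  have hf : deriv f x ≠ 0 := left_ne_zero_of_mul hne
  have hg : deriv g x ≠ 0 := right_ne_zero_of_mul hne
  have h1 := (differentiableAt_of_deriv_ne_zero hf).hasDerivAt.eventually_ne hf (c := 0)
  have h2 := (differentiableAt_of_deriv_ne_zero hg).hasDerivAt.eventually_ne hg (c := 0)
  obtain ⟨t, ht1, ht2⟩ := (h1.and h2).exists
  exact mul_ne_zero ht1 ht2 (h t)

theorem sq_sum_disj {ι : Type*} (s : Finset ι) (x : ι → ℝ)
    (h : ∀ i j, i ≠ j → x i * x j = 0) : (∑ i ∈ s, x i) ^ 2 = ∑ i ∈ s, x i ^ 2 := by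
  classical
  rw [sq, Finset.sum_mul_sum]
  refine Finset.sum_congr rfl fun i hi => ?_
  rw [Finset.sum_eq_single i]
  · ring
  · intro j _ hj
    exact h i j (Ne.symm hj)
  · intro h
    exact absurd hi h

theorem quad_sum {m : ℕ} (M : Matrix (Fin m) (Fin m) ℝ) (c : Fin m → ℝ) :
    ∑ i, c i * (M.mulVec c) i = ∑ i, ∑ j, c i * c j * M i j := by
  refine Finset.sum_congr rfl fun i _ => ?_
  simp only [Matrix.mulVec, dotProduct]
  rw [Finset.mul_sum]
  exact Finset.sum_congr rfl fun j _ => by ring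

theorem sum4 {ι κ α β : Type*} [Fintype ι] [Fintype κ] [Fintype α] [Fintype β]
    (t : ι → κ → α → β → ℝ) :
    ∑ e, ∑ a, ∑ i, ∑ j, t e a i j = ∑ i, ∑ j, ∑ e, ∑ a, t e a i j := by
  calc ∑ e, ∑ a, ∑ i, ∑ j, t e a i j = ∑ e, ∑ i, ∑ a, ∑ j, t e a i j :=
        Finset.sum_congr rfl fun e _ => Finset.sum_comm
    _ = ∑ i, ∑ e, ∑ a, ∑ j, t e a i j := Finset.sum_comm
    _ = ∑ i, ∑ e, ∑ j, ∑ a, t e a i j := Finset.sum_congr rfl fun i _ =>
        Finset.sum_congr rfl fun e _ => Finset.sum_comm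
    _ = ∑ i, ∑ j, ∑ e, ∑ a, t e a i j := Finset.sum_congr rfl fun i _ => Finset.sum_comm

variable {N n D l : ℕ} [NeZero l] {G : Subgroup (UU N)}

theorem dlink_disj (B : LieBasis G n) (e : Link D l) (a : Fin n) {F H : (Link D l → G) → ℝ}
    (h : ∀ U, F U * H U = 0) (U : Link D l → G) : dlink B e a F U * dlink B e a H U = 0 := by
  unfold dlink
  exact deriv_mul_zero fun t => h _

theorem dlink_fsum (B : LieBasis G n) (e : Link D l) (a : Fin n) {ι : Type*} (s : Finset ι)
    {F : ι → (Link D l → G) → ℝ} (hF : ∀ i, IsSmooth (F i)) (U : Link D l → G) :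
    dlink B e a (fun U => ∑ i ∈ s, F i U) U = ∑ i ∈ s, dlink B e a (F i) U :=
  (HasDerivAt.fun_sum fun i _ => hasDerivAt_dlink B (hF i) e a U).deriv

theorem dlink_comb (B : LieBasis G n) (e : Link D l) (a : Fin n) {ι : Type*} (s : Finset ι)
    {F : ι → (Link D l → G) → ℝ} (hF : ∀ i, IsSmooth (F i)) (c : ι → ℝ) (U : Link D l → G) :
    dlink B e a (fun U => ∑ i ∈ s, c i * F i U) U = ∑ i ∈ s, c i * dlink B e a (F i) U :=
  (HasDerivAt.fun_sum fun i _ => (hasDerivAt_dlink B (hF i) e a U).const_mul (c i)).deriv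

/-- the bilinear form of the energy -/
noncomputable def en [MeasurableSpace G] (B : LieBasis G n) (μ : Measure G) (g : ℝ)
    (F H : (Link D l → G) → ℝ) : ℝ :=
  g ^ 2 / 2 * (∑ e : Link D l, ∑ a : Fin n,
    ∫ U, dlink B e a F U * dlink B e a H U ∂(Measure.pi fun _ : Link D l => μ)) +
  1 / g ^ 2 * ∫ U, magnetic U * (F U * H U) ∂(Measure.pi fun _ : Link D l => μ)

section meas

variable [MeasurableSpace G] [BorelSpace G] (μ : Measure G) [IsProbabilityMeasure μ]
  [μ.IsHaarMeasure]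

theorem energy_nonneg (B : LieBasis G n) (g : ℝ) (F : (Link D l → G) → ℝ) :
    0 ≤ energy B μ g F := by
  unfold energy
  have h1 : 0 ≤ ∑ e : Link D l, ∑ a : Fin n,
    ∫ U, (dlink B e a F U) ^ 2 ∂(Measure.pi fun _ : Link D l => μ) :=
    Finset.sum_nonneg fun e _ => Finset.sum_nonneg fun a _ => integral_nonneg fun U => sq_nonneg _
  have h2 : 0 ≤ ∫ U, magnetic U * F U ^ 2 ∂(Measure.pi fun _ : Link D l => μ) :=
    integral_nonneg fun U => mul_nonneg (magnetic_nonneg U) (sq_nonneg _)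
  positivity

theorem energy_quad (hG : IsClosed (G : Set (UU N))) (B : LieBasis G n) (g : ℝ) {m : ℕ}
    {F : Fin m → (Link D l → G) → ℝ} (hF : ∀ i, IsSmooth (F i)) (c : Fin m → ℝ) :
    energy B μ g (fun U => ∑ i, c i * F i U) =
      ∑ i, c i * ((Matrix.of fun i j => en B μ g (F i) (F j)).mulVec c) i := by
  have h1 : ∀ e a, ∫ U, (dlink B e a (fun U => ∑ i, c i * F i U) U) ^ 2
      ∂(Measure.pi fun _ : Link D l => μ) = ∑ i, c i * ((Matrix.of fun i j =>
        ∫ U, dlink B e a (F i) U * dlink B e a (F j) U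
          ∂(Measure.pi fun _ : Link D l => μ)).mulVec c) i := by
    intro e a
    simp_rw [dlink_comb B e a Finset.univ hF c]
    exact Q150.LU.int_sq_comb _ (Ψ := fun i U => dlink B e a (F i) U)
      (fun i j => integrable_links μ hG
        (((hF i).dlink B e a).continuous.mul ((hF j).dlink B e a).continuous)) c
  have h2 : ∫ U, magnetic U * (∑ i, c i * F i U) ^ 2 ∂(Measure.pi fun _ : Link D l => μ) =
      ∑ i, c i * ((Matrix.of fun i j => ∫ U, magnetic U * (F i U * F j U)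
          ∂(Measure.pi fun _ : Link D l => μ)).mulVec c) i := by
    have h3 : ∀ U : Link D l → G, magnetic U * (∑ i, c i * F i U) ^ 2 =
        ∑ i, ∑ j, c i * c j * (magnetic U * (F i U * F j U)) := by
      intro U
      rw [Q150.LU.sq_comb, Finset.mul_sum]
      refine Finset.sum_congr rfl fun i _ => ?_
      rw [Finset.mul_sum]
      exact Finset.sum_congr rfl fun j _ => by ring
    simp_rw [h3]
    exact Q150.LU.quad_int _ (fun i j U => magnetic U * (F i U * F j U))
      (fun i j => integrable_links μ hG ((smooth_magnetic B).continuous.mul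
        ((hF i).continuous.mul (hF j).continuous))) c
  unfold energy
  simp_rw [h1]
  rw [h2]
  simp only [quad_sum, Matrix.of_apply, en]
  rw [sum4, Finset.mul_sum, Finset.mul_sum, ← Finset.sum_add_distrib]
  refine Finset.sum_congr rfl fun i _ => ?_
  rw [Finset.mul_sum, Finset.mul_sum, ← Finset.sum_add_distrib]
  refine Finset.sum_congr rfl fun j _ => ?_
  simp only [← Finset.mul_sum]
  ring

theorem energy_disj (hG : IsClosed (G : Set (UU N))) (B : LieBasis G n) (g : ℝ) {ι : Type*}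
    (s : Finset ι) {F : ι → (Link D l → G) → ℝ} (hF : ∀ i, IsSmooth (F i))
    (hd : ∀ i j, i ≠ j → ∀ U, F i U * F j U = 0) :
    energy B μ g (fun U => ∑ i ∈ s, F i U) = ∑ i ∈ s, energy B μ g (F i) := by
  have h1 : ∀ e a, ∫ U, (dlink B e a (fun U => ∑ i ∈ s, F i U) U) ^ 2
      ∂(Measure.pi fun _ : Link D l => μ) =
      ∑ i ∈ s, ∫ U, (dlink B e a (F i) U) ^ 2 ∂(Measure.pi fun _ : Link D l => μ) := by
    intro e a
    rw [← integral_finsetSum (f := fun i U => (dlink B e a (F i) U) ^ 2) _ fun i _ =>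
      integrable_links μ hG (((hF i).dlink B e a).continuous.pow 2)]
    congr 1
    funext U
    rw [dlink_fsum B e a s hF]
    exact sq_sum_disj s _ fun i j hij => dlink_disj B e a (hd i j hij) U
  have h2 : ∫ U, magnetic U * (∑ i ∈ s, F i U) ^ 2 ∂(Measure.pi fun _ : Link D l => μ) =
      ∑ i ∈ s, ∫ U, magnetic U * F i U ^ 2 ∂(Measure.pi fun _ : Link D l => μ) := by
    rw [← integral_finsetSum (f := fun i U => magnetic U * F i U ^ 2) _ fun i _ =>
      integrable_links μ hG ((smooth_magnetic B).continuous.mul ((hF i).continuous.pow 2))]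
    congr 1
    funext U
    rw [sq_sum_disj s _ fun i j hij => hd i j hij U, Finset.mul_sum]
  unfold energy
  simp_rw [h1]
  rw [h2, Finset.sum_add_distrib, ← Finset.mul_sum, ← Finset.mul_sum]
  congr 2
  calc ∑ e, ∑ a, ∑ i ∈ s, ∫ U, (dlink B e a (F i) U) ^ 2 ∂(Measure.pi fun _ : Link D l => μ)
      = ∑ e, ∑ i ∈ s, ∑ a, ∫ U, (dlink B e a (F i) U) ^ 2 ∂(Measure.pi fun _ : Link D l => μ) :=
        Finset.sum_congr rfl fun e _ => Finset.sum_comm
    _ = _ := Finset.sum_comm

theorem int_disj (hG : IsClosed (G : Set (UU N))) {ι : Type*}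
    (s : Finset ι) {F : ι → (Link D l → G) → ℝ} (hF : ∀ i, IsSmooth (F i))
    (hd : ∀ i j, i ≠ j → ∀ U, F i U * F j U = 0) :
    ∫ U, (∑ i ∈ s, F i U) ^ 2 ∂(Measure.pi fun _ : Link D l => μ) =
      ∑ i ∈ s, ∫ U, F i U ^ 2 ∂(Measure.pi fun _ : Link D l => μ) := by
  rw [← integral_finsetSum (f := fun i U => F i U ^ 2) _ fun i _ =>
    integrable_links μ hG ((hF i).continuous.pow 2)]
  congr 1
  funext U
  exact sq_sum_disj s _ fun i j hij => hd i j hij U

/-- invariance under translations by the centre -/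
theorem int_centre (hG : IsClosed (G : Set (UU N))) (z : Fin D → G)
    (Φ : (Link D l → G) → ℝ) :
    ∫ U, Φ (centre z U) ∂(Measure.pi fun _ : Link D l => μ) =
      ∫ U, Φ U ∂(Measure.pi fun _ : Link D l => μ) := by
  have := compactG hG
  have := sctG (G := G)
  have h1 : ∀ U : Link D l → G, centre z U = (fun e => if e.1 e.2 = -1 then z e.2 else 1) * U := by
    intro U
    funext e
    simp only [centre, Pi.mul_apply]
    split_ifs
    · rfl
    · rw [one_mul]
  simp_rw [h1]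
  exact integral_mul_left_eq_self (μ := Measure.pi fun _ : Link D l => μ) Φ _

theorem energy_centre (hG : IsClosed (G : Set (UU N))) (B : LieBasis G n)
    (g : ℝ) {z : Fin D → G} (hz : ∀ i, z i ∈ Subgroup.center G) (F : (Link D l → G) → ℝ) :
    energy B μ g (fun U => F (centre z U)) = energy B μ g F := by
  have h1 : ∀ e a U, dlink B e a (fun U => F (centre z U)) U = dlink B e a F (centre z U) := by
    intro e a U
    unfold dlink
    simp only [Q66.LU.centre_update z hz]
  have h2 : ∀ U : Link D l → G, magnetic (centre z U) = magnetic U := Q66.LU.magnetic_centre z hz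
  have h3 : ∀ e a, ∫ U, (dlink B e a (fun U => F (centre z U)) U) ^ 2
      ∂(Measure.pi fun _ : Link D l => μ) =
      ∫ U, (dlink B e a F U) ^ 2 ∂(Measure.pi fun _ : Link D l => μ) := by
    intro e a
    simp_rw [h1]
    exact int_centre μ hG z fun U => (dlink B e a F U) ^ 2
  have h4 : ∫ U, magnetic U * F (centre z U) ^ 2 ∂(Measure.pi fun _ : Link D l => μ) =
      ∫ U, magnetic U * F U ^ 2 ∂(Measure.pi fun _ : Link D l => μ) := by
    rw [← int_centre μ hG z fun U => magnetic U * F U ^ 2]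
    simp_rw [h2]
  unfold energy
  simp_rw [h3]
  rw [h4]

end meas

theorem smooth_centre {F : (Link D l → G) → ℝ} (hF : IsSmooth F) (z : Fin D → G) :
    IsSmooth (fun U => F (centre z U)) := by
  obtain ⟨f, hf, h⟩ := hF
  refine ⟨fun M => f fun e => if e.1 e.2 = -1 then mt (z e.2) * M e else M e, ?_, fun U => ?_⟩
  · refine hf.comp (contDiff_pi.2 fun e => ?_)
    by_cases he : e.1 e.2 = -1
    · simp only [if_pos he]
      exact contDiff_const.mul (contDiff_apply _ _ _)
    · simp only [if_neg he]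
      exact contDiff_apply _ _ _
  · show F (centre z U) = _
    rw [h]
    congr 1
    funext e
    unfold centre
    split_ifs
    · rw [mt_mul]
    · rfl

/-! ### the sum of the translates -/

/-- an element of the centre for every direction -/
def cz (z : Fin D → Subgroup.center G) : Fin D → G := fun i => (z i : G)

theorem cz_mem (z : Fin D → Subgroup.center G) (i : Fin D) : cz z i ∈ Subgroup.center G := (z i).2

section wells

variable [Fintype (Fin D → Subgroup.center G)]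

/-- the sum of the translates -/
noncomputable def hat (H : (Link D l → G) → ℝ) (U : Link D l → G) : ℝ :=
  ∑ z : Fin D → Subgroup.center G, H (centre (cz z) U)

theorem hat_smooth {H : (Link D l → G) → ℝ} (hH : IsSmooth H) : IsSmooth (hat H) :=
  IsSmooth.sum Finset.univ fun z _ => smooth_centre hH (cz z)

theorem hat_gauge {H : (Link D l → G) → ℝ} (hH : GaugeInv H) : GaugeInv (hat H) := by
  intro γ U
  unfold hat
  refine Finset.sum_congr rfl fun z _ => ?_
  rw [← Q65.LU.gauge_centre (cz_mem z), hH]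

theorem hat_centre (H : (Link D l → G) → ℝ) : CentreInv (hat H) := by
  intro w hw U
  unfold hat
  refine Fintype.sum_equiv (Equiv.mulRight fun i => (⟨w i, hw i⟩ : Subgroup.center G)) _ _ ?_
  intro z
  congr 1
  rw [Q65.LU.centre_centre]
  rfl

variable {B : LieBasis G n} {dc : Dec B D l}

omit [Fintype (Fin D → Subgroup.center G)] in
theorem orb_disj {r2 δ : ℝ} (hδ0 : 0 ≤ δ) (hδ : δ ≤ r2)
    (huniq : ∀ (γ : (Fin D → ZMod l) → G) (z : Fin D → G)
      (x y : (Fin D × Fin n → ℝ) × (Fin dc.M → ℝ)), (∀ i, z i ∈ Subgroup.center G) →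
      nx x < r2 ^ 2 → nx y < r2 ^ 2 → dc.ch x = gauge γ (centre z (dc.ch y)) →
      (∀ i, z i = 1) ∧ x = dc.sg (γ 0) y)
    {z z' : Fin D → Subgroup.center G} {U : Link D l → G} (h1 : Orb1 dc δ (centre (cz z) U))
    (h2 : Orb1 dc δ (centre (cz z') U)) : z = z' := by
  obtain ⟨γ, x, hx, e1⟩ := h1
  obtain ⟨γ', y, hy, e2⟩ := h2
  have hδ2 : δ ^ 2 ≤ r2 ^ 2 := pow_le_pow_left₀ hδ0 hδ 2
  have hw : ∀ i, cz z' i * (cz z i)⁻¹ ∈ Subgroup.center G := fun i =>
    Subgroup.mul_mem _ (cz_mem z' i) (Subgroup.inv_mem _ (cz_mem z i))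
  have e3 : centre (cz z') U = centre (fun i => cz z' i * (cz z i)⁻¹) (centre (cz z) U) := by
    rw [Q65.LU.centre_centre]
    congr 1
    funext i
    rw [inv_mul_cancel_right]
  rw [e2, e1, ← Q65.LU.gauge_centre hw] at e3
  have e4 : dc.ch y = gauge (fun v => (γ' v)⁻¹ * γ v)
      (centre (fun i => cz z' i * (cz z i)⁻¹) (dc.ch x)) := by
    rw [← Q65.LU.gauge_gauge, ← e3, Q65.LU.gauge_gauge]
    simp only [inv_mul_cancel]
    exact (Q65.LU.gauge_one _).symm
  have e5 := (huniq _ _ y x hw (hy.trans_le hδ2) (hx.trans_le hδ2) e4).1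
  funext i
  exact (Subtype.ext (mul_inv_eq_one.1 (e5 i))).symm

theorem hat_chart {r2 δ : ℝ} (hδ0 : 0 ≤ δ) (hδ : δ ≤ r2)
    (huniq : ∀ (γ : (Fin D → ZMod l) → G) (z : Fin D → G)
      (x y : (Fin D × Fin n → ℝ) × (Fin dc.M → ℝ)), (∀ i, z i ∈ Subgroup.center G) →
      nx x < r2 ^ 2 → nx y < r2 ^ 2 → dc.ch x = gauge γ (centre z (dc.ch y)) →
      (∀ i, z i = 1) ∧ x = dc.sg (γ 0) y)
    {H : (Link D l → G) → ℝ} (hH : ∀ U, H U ≠ 0 → Orb1 dc δ U)
    {x : (Fin D × Fin n → ℝ) × (Fin dc.M → ℝ)} (hx : nx x < δ ^ 2) :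
    hat H (dc.ch x) = H (dc.ch x) := by
  have h1 : centre (cz (fun _ => (1 : Subgroup.center G))) (dc.ch x) = dc.ch x :=
    Q65.LU.centre_one _
  unfold hat
  rw [Finset.sum_eq_single (fun _ => (1 : Subgroup.center G))]
  · rw [h1]
  · intro z _ hz
    by_contra hne
    apply hz
    refine orb_disj hδ0 hδ huniq (hH _ hne) (U := dc.ch x) ?_
    rw [h1]
    exact ⟨fun _ => 1, x, hx, (Q65.LU.gauge_one _).symm⟩
  · intro h
    exact absurd (Finset.mem_univ _) h

theorem hat_orb {δ : ℝ} {H : (Link D l → G) → ℝ} (hH : ∀ U, H U ≠ 0 → Orb1 dc δ U)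
    (U : Link D l → G) (hU : hat H U ≠ 0) : Orb dc δ U := by
  obtain ⟨z, -, hz⟩ := Finset.exists_ne_zero_of_sum_ne_zero hU
  obtain ⟨γ, x, hx, e⟩ := hH _ hz
  have h1 : U = centre (fun i => (cz z i)⁻¹) (centre (cz z) U) := by
    rw [Q65.LU.centre_centre]
    simp only [inv_mul_cancel]
    exact (Q65.LU.centre_one _).symm
  have h2 : ∀ i, (cz z i)⁻¹ ∈ Subgroup.center G := Q65.LU.center_inv (cz_mem z)
  refine ⟨γ, fun i => (cz z i)⁻¹, x, h2, hx, ?_⟩
  rw [Q65.LU.gauge_centre h2, ← e]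
  exact h1

theorem hat_pull [MeasurableSpace G] {μ : Measure G} {L : Loc (Fin D × Fin n) (Fin dc.M)}
    (hL : Chart μ dc L) {r2 δ : ℝ} (hδ0 : 0 < δ) (hδ : δ ≤ r2) (hδr : δ ≤ L.r)
    (huniq : ∀ (γ : (Fin D → ZMod l) → G) (z : Fin D → G)
      (x y : (Fin D × Fin n → ℝ) × (Fin dc.M → ℝ)), (∀ i, z i ∈ Subgroup.center G) →
      nx x < r2 ^ 2 → nx y < r2 ^ 2 → dc.ch x = gauge γ (centre z (dc.ch y)) →
      (∀ i, z i = 1) ∧ x = dc.sg (γ 0) y)
    {H : (Link D l → G) → ℝ} (hH : ∀ U, H U ≠ 0 → Orb1 dc δ U)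
    {h : (Fin D × Fin n → ℝ) × (Fin dc.M → ℝ) → ℝ} (hh : ∀ x, h x ≠ 0 → nx x < δ ^ 2)
    (hv : ∀ x, nx x < δ ^ 2 → H (dc.ch x) = h x) :
    dc.pull L.r (hat H) = h := by
  funext x
  unfold Dec.pull
  have hδ2 : δ ^ 2 ≤ L.r ^ 2 := pow_le_pow_left₀ hδ0.le hδr 2
  by_cases h1 : nx x < δ ^ 2
  · rw [if_pos (h1.trans_le hδ2), hat_chart hδ0.le hδ huniq hH h1, hv x h1]
  · have h2 : h x = 0 := by
      by_contra h3
      exact h1 (hh x h3)
    rw [h2]
    split_ifs with h3
    · by_contra h4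
      exact h1 (hL.uniq x δ h3 hδ0 hδr (hat_orb hH _ h4))
    · rfl

theorem int_hat [MeasurableSpace G] [BorelSpace G] (μ : Measure G) [IsProbabilityMeasure μ]
    [μ.IsHaarMeasure] (hG : IsClosed (G : Set (UU N))) {H : (Link D l → G) → ℝ} (hs : IsSmooth H)
    (hd : ∀ z z' : Fin D → Subgroup.center G, z ≠ z' → ∀ U,
      H (centre (cz z) U) * H (centre (cz z') U) = 0) :
    ∫ U, hat H U ^ 2 ∂(Measure.pi fun _ : Link D l => μ) =
      Fintype.card (Fin D → Subgroup.center G) *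
        ∫ U, H U ^ 2 ∂(Measure.pi fun _ : Link D l => μ) := by
  unfold hat
  rw [int_disj μ hG Finset.univ (F := fun (z : Fin D → Subgroup.center G) U => H (centre (cz z) U))
    (fun z => smooth_centre hs (cz z)) hd]
  have h1 : ∀ z : Fin D → Subgroup.center G,
      ∫ U, H (centre (cz z) U) ^ 2 ∂(Measure.pi fun _ : Link D l => μ) =
        ∫ U, H U ^ 2 ∂(Measure.pi fun _ : Link D l => μ) := fun z =>
    int_centre μ hG (cz z) fun U => H U ^ 2
  simp_rw [h1]
  rw [Finset.sum_const, Finset.card_univ, nsmul_eq_mul]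

theorem energy_hat [MeasurableSpace G] [BorelSpace G] (μ : Measure G) [IsProbabilityMeasure μ]
    [μ.IsHaarMeasure] (hG : IsClosed (G : Set (UU N))) (B : LieBasis G n) (g : ℝ)
    {H : (Link D l → G) → ℝ} (hs : IsSmooth H)
    (hd : ∀ z z' : Fin D → Subgroup.center G, z ≠ z' → ∀ U,
      H (centre (cz z) U) * H (centre (cz z') U) = 0) :
    energy B μ g (hat H) = Fintype.card (Fin D → Subgroup.center G) * energy B μ g H := by
  have h0 : hat H = fun U => ∑ z : Fin D → Subgroup.center G, H (centre (cz z) U) := rfl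
  rw [h0, energy_disj μ hG B g Finset.univ
    (F := fun (z : Fin D → Subgroup.center G) U => H (centre (cz z) U))
    (fun z => smooth_centre hs (cz z)) hd]
  have h1 : ∀ z : Fin D → Subgroup.center G,
      energy B μ g (fun U => H (centre (cz z) U)) = energy B μ g H := fun z =>
    energy_centre μ hG B g (cz_mem z) H
  simp_rw [h1]
  rw [Finset.sum_const, Finset.card_univ, nsmul_eq_mul]

end wells

end Pool.Agent.Q16.LU
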